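import Pool.Graph.R_pool_sql_team_seeded_63374d34.N77.AU.Virt

set_option autoImplicit false

/-!
# Groups that are finitely presented relative to finitely generated groups; Noetherian groups
-/

namespace Pool.Agent.Helper29.SM

open scoped commutatorElement
open Pool.Agent.N77.AU (comm_le)

/-- For every homomorphism of a finitely generated group onto `Q` the kernel is generated by finitely
many elements as a normal subgroup. -/
def NF (Q : Type) [Group Q] : Prop :=
  ∀ (G : Type) [Group G] [Group.FG G] (π : G →* Q), Function.Surjective π →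
    ∃ F : Finset G, Subgroup.normalClosure (F : Set G) = π.ker

theorem fg_of_comm {B : Type} [CommGroup B] [Group.FG B] (K : Subgroup B) : K.FG := by
  have h1 : AddGroup.FG (Additive B) := AddGroup.fg_iff_mul_fg.2 (by
    change Group.FG B
    infer_instance)
  have h2 : Module.Finite ℤ (Additive B) := Module.Finite.iff_addGroup_fg.2 h1
  have h3 : IsNoetherian ℤ (Additive B) := inferInstance
  rw [Subgroup.fg_iff_add_fg]
  have h4 := h3.noetherian (AddSubgroup.toIntSubmodule (Subgroup.toAddSubgroup K))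
  exact (Submodule.fg_iff_addSubgroup_fg _).1 h4

/-- An extension of a finitely generated group by a finitely generated group. -/
theorem fg_ext {K B : Type} [Group K] [Group B] (f : K →* B) (h1 : f.range.FG) (h2 : f.ker.FG) :
    Group.FG K := by
  classical
  obtain ⟨T, hT⟩ := h1
  obtain ⟨U, hU⟩ := h2
  have hl : ∀ t ∈ T, ∃ k, f k = t := by
    intro t ht
    have h3 : t ∈ f.range := by
      rw [← hT]
      exact Subgroup.subset_closure ht
    exact h3
  choose! l hl using hl
  rw [Group.fg_def]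
  refine ⟨T.image l ∪ U, ?_⟩
  rw [eq_top_iff]
  intro k _
  set L := Subgroup.closure ((T.image l ∪ U : Finset K) : Set K) with hL
  have hUL : f.ker ≤ L := by
    rw [← hU, Subgroup.closure_le]
    intro u hu
    refine Subgroup.subset_closure ?_
    rw [Finset.coe_union]
    exact Or.inr hu
  have hTL : f.range ≤ L.map f := by
    rw [← hT, Subgroup.closure_le]
    intro t ht
    refine ⟨l t, Subgroup.subset_closure ?_, hl t ht⟩
    rw [Finset.coe_union]
    exact Or.inl (Finset.mem_coe.2 (Finset.mem_image_of_mem l ht))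
  obtain ⟨x, hx, hxk⟩ := hTL ⟨k, rfl⟩
  have h3 : x⁻¹ * k ∈ L := hUL (by rw [MonoidHom.mem_ker, map_mul, map_inv, hxk, inv_mul_cancel])
  have h4 := L.mul_mem hx h3
  rwa [mul_inv_cancel_left] at h4

/-- Groups all whose subgroups are finitely generated. -/
def NG (Q : Type) [Group Q] : Prop := ∀ K : Subgroup Q, K.FG

theorem NG.fg {Q : Type} [Group Q] (h : NG Q) : Group.FG Q := Group.fg_def.2 (h ⊤)

theorem NG.sub {Q : Type} [Group Q] (h : NG Q) (A : Subgroup Q) : NG A := by
  intro K
  have h1 := h (K.map A.subtype)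
  have h2 : Group.FG (K.map A.subtype) := (Group.fg_iff_subgroup_fg _).2 h1
  rw [← Group.fg_iff_subgroup_fg]
  exact Group.fg_of_surjective (f := (K.equivMapOfInjective A.subtype
    A.subtype_injective).symm.toMonoidHom) (K.equivMapOfInjective A.subtype
    A.subtype_injective).symm.surjective

theorem NG.ext {Q B : Type} [Group Q] [Group B] (f : Q →* B) (h1 : NG B) (h2 : NG f.ker) : NG Q := by
  intro K
  rw [← Group.fg_iff_subgroup_fg]
  refine fg_ext (f.comp K.subtype) (h1 _) ?_
  have h3 := h2 (K.subgroupOf f.ker)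
  have h4 : Group.FG (K.subgroupOf f.ker) := (Group.fg_iff_subgroup_fg _).2 h3
  rw [← Group.fg_iff_subgroup_fg]
  refine Group.fg_of_surjective (f := ({
    toFun := fun x => ⟨⟨x.1.1, x.2⟩, x.1.2⟩
    map_one' := rfl
    map_mul' := fun _ _ => rfl } : K.subgroupOf f.ker →* (f.comp K.subtype).ker)) ?_
  rintro ⟨⟨x, hx⟩, hx'⟩
  exact ⟨⟨⟨x, hx'⟩, hx⟩, rfl⟩

theorem NG.of_comm {Q : Type} [Group Q] [Group.FG Q] (h : ∀ a b : Q, a * b = b * a) : NG Q := by
  let _ : CommGroup Q := { (inferInstance : Group Q) with mul_comm := h }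
  intro K
  exact fg_of_comm K

theorem fg_of_finiteIndex {Q : Type} [Group Q] (H : Subgroup Q) [H.FiniteIndex] (h : H.FG) :
    Group.FG Q := by
  classical
  obtain ⟨T, hT⟩ := h
  have : Finite (Q ⧸ H) := inferInstance
  let _ := Fintype.ofFinite (Q ⧸ H)
  rw [Group.fg_def]
  refine ⟨T ∪ Finset.univ.image fun c : Q ⧸ H => c.out, ?_⟩
  rw [eq_top_iff]
  intro g _
  set L := Subgroup.closure ((T ∪ Finset.univ.image fun c : Q ⧸ H => c.out : Finset Q) : Set Q)
  have h1 : H ≤ L := by
    rw [← hT, Subgroup.closure_le]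
    intro u hu
    refine Subgroup.subset_closure ?_
    rw [Finset.coe_union]
    exact Or.inl hu
  have h2 : ((g : Q ⧸ H).out : Q) ∈ L := by
    refine Subgroup.subset_closure ?_
    rw [Finset.coe_union]
    exact Or.inr (Finset.mem_coe.2 (Finset.mem_image_of_mem _ (Finset.mem_univ _)))
  have h3 : ((g : Q ⧸ H).out : Q)⁻¹ * g ∈ L := by
    refine h1 (QuotientGroup.eq.1 ?_)
    exact QuotientGroup.out_eq' _
  have h4 := L.mul_mem h2 h3
  rwa [mul_inv_cancel_left] at h4

theorem NG.finiteIndex {Q : Type} [Group Q] (H : Subgroup Q) [H.FiniteIndex] (h : NG H) :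
    NG Q := by
  intro K
  rw [← Group.fg_iff_subgroup_fg]
  refine fg_of_finiteIndex (H.subgroupOf K) ?_
  have h3 := h (K.subgroupOf H)
  have h4 : Group.FG (K.subgroupOf H) := (Group.fg_iff_subgroup_fg _).2 h3
  rw [← Group.fg_iff_subgroup_fg]
  refine Group.fg_of_surjective (f := ({
    toFun := fun x => ⟨⟨x.1.1, x.2⟩, x.1.2⟩
    map_one' := rfl
    map_mul' := fun _ _ => rfl } : K.subgroupOf H →* H.subgroupOf K)) ?_
  rintro ⟨⟨x, hx⟩, hx'⟩
  exact ⟨⟨⟨x, hx'⟩, hx⟩, rfl⟩

theorem NF.of_comm {Q : Type} [Group Q] (h : ∀ a b : Q, a * b = b * a) : NF Q := by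
  classical
  intro G _ _ π hπ
  obtain ⟨S, hS, hSf⟩ := Group.fg_iff.1 (inferInstance : Group.FG G)
  have hfin : (Set.image2 (fun x y : G => ⁅x, y⁆) S S).Finite := hSf.image2 _ hSf
  have hker : commutator G ≤ π.ker := by
    rw [commutator_eq_closure, Subgroup.closure_le]
    rintro _ ⟨x, y, rfl⟩
    change π ⁅x, y⁆ = 1
    rw [map_commutatorElement, commutatorElement_eq_one_iff_mul_comm]
    exact h _ _
  have : Group.FG (Abelianization G) := Group.fg_of_surjective (f := Abelianization.of)
    (QuotientGroup.mk'_surjective _)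
  obtain ⟨E, hE⟩ := fg_of_comm (π.ker.map (Abelianization.of : G →* Abelianization G))
  have hl : ∀ e ∈ E, ∃ g ∈ π.ker, Abelianization.of g = e := by
    intro e he
    have h3 : e ∈ π.ker.map (Abelianization.of : G →* Abelianization G) := by
      rw [← hE]
      exact Subgroup.subset_closure he
    exact h3
  choose! l hl1 hl2 using hl
  refine ⟨hfin.toFinset ∪ E.image l, le_antisymm ?_ ?_⟩
  · rw [← Subgroup.normalClosure_subset_iff]
    intro x hx
    rw [Finset.coe_union] at hx
    rcases hx with hx | hx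
    · rw [Set.Finite.coe_toFinset] at hx
      obtain ⟨a, _, b, _, rfl⟩ := hx
      exact hker (Subgroup.commutator_mem_commutator trivial trivial)
    · obtain ⟨e, he, rfl⟩ := Finset.mem_image.1 (Finset.mem_coe.1 hx)
      exact hl1 e he
  · set N := Subgroup.normalClosure ((hfin.toFinset ∪ E.image l : Finset G) : Set G) with hN
    have h1 : commutator G ≤ N := comm_le hS N fun s hs t ht => by
      refine Subgroup.subset_normalClosure ?_
      rw [Finset.coe_union, Set.Finite.coe_toFinset]
      exact Or.inl ⟨s, hs, t, ht, rfl⟩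
    intro g hg
    have h2 : π.ker.map (Abelianization.of : G →* Abelianization G) ≤
        N.map (Abelianization.of : G →* Abelianization G) := by
      rw [← hE, Subgroup.closure_le]
      intro e he
      refine ⟨l e, Subgroup.subset_normalClosure ?_, hl2 e he⟩
      rw [Finset.coe_union]
      exact Or.inr (Finset.mem_coe.2 (Finset.mem_image_of_mem l he))
    obtain ⟨x, hx, hxg⟩ := h2 ⟨g, hg, rfl⟩
    have h3 : x⁻¹ * g ∈ N := by
      refine h1 ?_
      rw [← Abelianization.ker_of, MonoidHom.mem_ker, map_mul, map_inv, hxg, inv_mul_cancel]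
    have h4 := N.mul_mem hx h3
    rwa [mul_inv_cancel_left] at h4

theorem NF.finiteIndex {Q : Type} [Group Q] (H : Subgroup Q) [H.FiniteIndex] (h : NF H) :
    NF Q := by
  classical
  intro G _ _ π hπ
  have hfi : (H.comap π).FiniteIndex :=
    ⟨by rw [Subgroup.index_comap_of_surjective _ hπ]; exact Subgroup.FiniteIndex.index_ne_zero⟩
  have hfg : Group.FG (H.comap π) := Subgroup.fg_of_index_ne_zero _
  obtain ⟨F, hF⟩ := h (H.comap π) (π.subgroupComap H) (by
    rintro ⟨x, hx⟩
    obtain ⟨g, rfl⟩ := hπ x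
    exact ⟨⟨g, hx⟩, rfl⟩)
  refine ⟨F.image Subtype.val, le_antisymm ?_ ?_⟩
  · rw [← Subgroup.normalClosure_subset_iff]
    intro x hx
    obtain ⟨y, hy, rfl⟩ := Finset.mem_image.1 (Finset.mem_coe.1 hx)
    have h1 : y ∈ (π.subgroupComap H).ker := by
      rw [← hF]
      exact Subgroup.subset_normalClosure hy
    exact congrArg Subtype.val (MonoidHom.mem_ker.1 h1)
  · intro g hg
    have h1 : g ∈ H.comap π := by
      rw [Subgroup.mem_comap, MonoidHom.mem_ker.1 hg]
      exact H.one_mem
    have h2 : (⟨g, h1⟩ : H.comap π) ∈ (π.subgroupComap H).ker := Subtype.ext hg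
    rw [← hF] at h2
    have h3 : Subgroup.normalClosure (F : Set (H.comap π)) ≤
        (Subgroup.normalClosure ((F.image Subtype.val : Finset G) : Set G)).comap
          (H.comap π).subtype := by
      refine Subgroup.normalClosure_le_normal ?_
      intro x hx
      refine Subgroup.subset_normalClosure ?_
      exact Finset.mem_coe.2 (Finset.mem_image_of_mem _ hx)
    exact h3 h2

theorem NF.ext {Q : Type} [Group Q] (A : Subgroup Q) [A.Normal] (hA : A.FG) (h1 : NF A)
    (h2 : NF (Q ⧸ A)) : NF Q := by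
  classical
  intro G _ _ π hπ
  obtain ⟨S, hS, hSf⟩ := Group.fg_iff.1 (inferInstance : Group.FG G)
  obtain ⟨Y, hY⟩ := hA
  choose l hl using hπ
  -- the subgroup generated by lifts
  let Ym : Finset G := Y.image l
  let Γ : Subgroup G := Subgroup.closure (Ym : Set G)
  have hΓA : Γ.map π = A := by
    rw [MonoidHom.map_closure, ← hY]
    congr 1
    ext x
    simp only [Ym, Finset.coe_image, Set.mem_image, Finset.mem_coe, exists_exists_and_eq_and]
    constructor
    · rintro ⟨y, hy, rfl⟩
      rw [hl]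
      exact hy
    · intro hx
      exact ⟨x, hx, hl x⟩
  have hΓ : ∀ g : G, π g ∈ A → ∃ γ ∈ Γ, π γ = π g := by
    intro g hg
    rw [← hΓA] at hg
    exact hg
  have hΓfg : Group.FG Γ := (Group.fg_iff_subgroup_fg _).2 ⟨Ym, rfl⟩
  let πΓ : Γ →* A := (π.comp Γ.subtype).codRestrict A fun x => by
    rw [← hΓA]
    exact ⟨x, x.2, rfl⟩
  have hπΓ : Function.Surjective πΓ := by
    rintro ⟨a, ha⟩
    rw [← hΓA] at ha
    obtain ⟨γ, hγ, rfl⟩ := ha
    exact ⟨⟨γ, hγ⟩, rfl⟩
  obtain ⟨Z, hZ⟩ := h1 Γ πΓ hπΓ
  obtain ⟨W, hW⟩ := h2 G ((QuotientGroup.mk' A).comp π)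
    ((QuotientGroup.mk'_surjective A).comp fun x => ⟨l x, hl x⟩)
  have hWA : ∀ w ∈ W, π w ∈ A := by
    intro w hw
    have h3 : w ∈ ((QuotientGroup.mk' A).comp π).ker := by
      rw [← hW]
      exact Subgroup.subset_normalClosure hw
    exact (QuotientGroup.eq_one_iff _).1 h3
  choose! c hc1 hc2 using hΓ
  let S' : Finset G := hSf.toFinset ∪ hSf.toFinset.image fun s => s⁻¹
  let F : Finset G := Z.image Subtype.val ∪ (W.image fun w => w * (c w)⁻¹) ∪
    (S' ×ˢ Ym).image fun p => p.1 * p.2 * p.1⁻¹ * (c (p.1 * p.2 * p.1⁻¹))⁻¹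
  have hYA : ∀ y ∈ Ym, π y ∈ A := by
    intro y hy
    rw [← hΓA]
    exact ⟨y, Subgroup.subset_closure hy, rfl⟩
  have hconjA : ∀ s, ∀ y ∈ Ym, π (s * y * s⁻¹) ∈ A := by
    intro s y hy
    rw [map_mul, map_mul, map_inv]
    exact (inferInstance : A.Normal).conj_mem _ (hYA y hy) _
  refine ⟨F, le_antisymm ?_ ?_⟩
  · rw [← Subgroup.normalClosure_subset_iff]
    intro x hx
    rcases Finset.mem_union.1 (Finset.mem_coe.1 hx) with hx | hx
    · rcases Finset.mem_union.1 hx with hx | hx
      · obtain ⟨z, hz, rfl⟩ := Finset.mem_image.1 hx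
        have h3 : z ∈ πΓ.ker := by
          rw [← hZ]
          exact Subgroup.subset_normalClosure hz
        exact congrArg Subtype.val (MonoidHom.mem_ker.1 h3)
      · obtain ⟨w, hw, rfl⟩ := Finset.mem_image.1 hx
        change π (w * (c w)⁻¹) = 1
        rw [map_mul, map_inv, hc2 w (hWA w hw), mul_inv_cancel]
    · obtain ⟨⟨s, y⟩, hp, rfl⟩ := Finset.mem_image.1 hx
      rw [Finset.mem_product] at hp
      change π (s * y * s⁻¹ * (c (s * y * s⁻¹))⁻¹) = 1
      rw [map_mul, map_inv, hc2 _ (hconjA s y hp.2), mul_inv_cancel]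
  · set N := Subgroup.normalClosure (F : Set G) with hN
    have hFN : ∀ x ∈ F, x ∈ N := fun x hx => Subgroup.subset_normalClosure hx
    let L : Subgroup G := Γ ⊔ N
    have hΓL : Γ ≤ L := le_sup_left
    have hNL : N ≤ L := le_sup_right
    -- `L` is normal
    have hLs : ∀ s ∈ S', ∀ x ∈ L, s * x * s⁻¹ ∈ L := by
      intro s hs
      have h3 : L ≤ L.comap (MulAut.conj s).toMonoidHom := by
        refine sup_le ?_ ?_
        · rw [Subgroup.closure_le]
          intro y hy
          change s * y * s⁻¹ ∈ L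
          have h4 : s * y * s⁻¹ * (c (s * y * s⁻¹))⁻¹ ∈ N := hFN _ (Finset.mem_union_right _
            (Finset.mem_image.2 ⟨(s, y), Finset.mem_product.2 ⟨hs, hy⟩, rfl⟩))
          have h5 := L.mul_mem (hNL h4) (hΓL (hc1 _ (hconjA s y hy)))
          rwa [inv_mul_cancel_right] at h5
        · intro x hx
          exact hNL (Subgroup.normalClosure_normal.conj_mem x hx s)
      intro x hx
      exact h3 hx
    have hLn : L.Normal := by
      refine ⟨fun x hx g => ?_⟩
      have hg : g ∈ Subgroup.closure S := by rw [hS]; trivial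
      rw [← Subgroup.mem_toSubmonoid, Subgroup.closure_toSubmonoid] at hg
      induction hg using Submonoid.closure_induction generalizing x with
      | mem s hs =>
        refine hLs s ?_ x hx
        rcases hs with hs | hs
        · exact Finset.mem_union_left _ (hSf.mem_toFinset.2 hs)
        · exact Finset.mem_union_right _ (Finset.mem_image.2 ⟨s⁻¹, hSf.mem_toFinset.2 hs, inv_inv s⟩)
      | one => simpa using hx
      | mul a b _ _ ha hb =>
        have := ha _ (hb _ hx)
        rwa [show a * (b * x * b⁻¹) * a⁻¹ = a * b * x * (a * b)⁻¹ by group] at this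
    have hWL : Subgroup.normalClosure (W : Set G) ≤ L := by
      refine Subgroup.normalClosure_le_normal ?_
      intro w hw
      have h4 : w * (c w)⁻¹ ∈ N := hFN _ (Finset.mem_union_left _ (Finset.mem_union_right _
        (Finset.mem_image_of_mem (fun w => w * (c w)⁻¹) hw)))
      have h5 := L.mul_mem (hNL h4) (hΓL (hc1 _ (hWA w hw)))
      rwa [inv_mul_cancel_right] at h5
    intro g hg
    have h3 : g ∈ L := by
      refine hWL ?_
      rw [hW, MonoidHom.mem_ker, MonoidHom.comp_apply, MonoidHom.mem_ker.1 hg, map_one]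
    obtain ⟨γ, hγ, n, hn, rfl⟩ := Subgroup.mem_sup_of_normal_right.1 h3
    have hNk : N ≤ π.ker := by
      rw [hN, ← Subgroup.normalClosure_subset_iff]
      intro x hx
      rcases Finset.mem_union.1 (Finset.mem_coe.1 hx) with hx | hx
      · rcases Finset.mem_union.1 hx with hx | hx
        · obtain ⟨z, hz, rfl⟩ := Finset.mem_image.1 hx
          have h3 : z ∈ πΓ.ker := by
            rw [← hZ]
            exact Subgroup.subset_normalClosure hz
          exact congrArg Subtype.val (MonoidHom.mem_ker.1 h3)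
        · obtain ⟨w, hw, rfl⟩ := Finset.mem_image.1 hx
          change π (w * (c w)⁻¹) = 1
          rw [map_mul, map_inv, hc2 w (hWA w hw), mul_inv_cancel]
      · obtain ⟨⟨s, y⟩, hp, rfl⟩ := Finset.mem_image.1 hx
        rw [Finset.mem_product] at hp
        change π (s * y * s⁻¹ * (c (s * y * s⁻¹))⁻¹) = 1
        rw [map_mul, map_inv, hc2 _ (hconjA s y hp.2), mul_inv_cancel]
    have h4 : π γ = 1 := by
      have h5 : π (γ * n) = 1 := hg
      rwa [map_mul, show π n = 1 from hNk hn, mul_one] at h5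
    have h5 : (⟨γ, hγ⟩ : Γ) ∈ πΓ.ker := Subtype.ext h4
    rw [← hZ] at h5
    have h6 : Subgroup.normalClosure (Z : Set Γ) ≤ N.comap Γ.subtype := by
      refine Subgroup.normalClosure_le_normal ?_
      intro z hz
      exact hFN _ (Finset.mem_union_left _ (Finset.mem_union_left _ (Finset.mem_image_of_mem _ hz)))
    exact N.mul_mem (h6 h5) hn

end Pool.Agent.Helper29.SM
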